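import Mathlib

set_option autoImplicit false

namespace Pool.Agent.Results.MP_4ec73f_lc.MaximalNumber

open Set Cardinal

/-- A Boolean algebra of sets of reals. -/
def IsAlg (B : Set (Set ℝ)) : Prop :=
  ∅ ∈ B ∧ Set.univ ∈ B ∧ (∀ s ∈ B, ∀ t ∈ B, s ∪ t ∈ B) ∧ (∀ s ∈ B, sᶜ ∈ B)

/-- The type of all Boolean algebras of sets of reals. -/
def Alg : Type := {B : Set (Set ℝ) // IsAlg B}

/-- Isomorphism of Boolean algebras of sets of reals: a bijection preserving unions,
intersections and complements. -/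
def Iso (B C : Alg) : Prop :=
  ∃ f : B.1 ≃ C.1, ∀ s t u : B.1,
    (u.1 = s.1 ∪ t.1 → (f u).1 = (f s).1 ∪ (f t).1) ∧
    (u.1 = s.1 ∩ t.1 → (f u).1 = (f s).1 ∩ (f t).1) ∧
    (u.1 = s.1ᶜ → (f u).1 = (f s).1ᶜ)

lemma inter_mem (B : Alg) {s t : Set ℝ} (hs : s ∈ B.1) (ht : t ∈ B.1) : s ∩ t ∈ B.1 := by
  obtain ⟨-, -, hu, hc⟩ := B.2
  have := hc _ (hu _ (hc _ hs) _ (hc _ ht))
  rwa [compl_union, compl_compl, compl_compl] at this

lemma Iso.refl (B : Alg) : Iso B B :=
  ⟨Equiv.refl _, fun _ _ _ => ⟨fun h => h, fun h => h, fun h => h⟩⟩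

lemma Iso.symm {B C : Alg} (h : Iso B C) : Iso C B := by
  obtain ⟨f, hf⟩ := h
  refine ⟨f.symm, fun s t u => ⟨?_, ?_, ?_⟩⟩
  · intro h
    have hmem : (f.symm s).1 ∪ (f.symm t).1 ∈ B.1 :=
      B.2.2.2.1 _ (f.symm s).2 _ (f.symm t).2
    have h1 := (hf (f.symm s) (f.symm t) ⟨_, hmem⟩).1 rfl
    rw [f.apply_symm_apply, f.apply_symm_apply, ← h] at h1
    have h2 : f ⟨_, hmem⟩ = u := Subtype.ext h1
    rw [← h2, f.symm_apply_apply]
  · intro h
    have hmem : (f.symm s).1 ∩ (f.symm t).1 ∈ B.1 :=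
      inter_mem B (f.symm s).2 (f.symm t).2
    have h1 := (hf (f.symm s) (f.symm t) ⟨_, hmem⟩).2.1 rfl
    rw [f.apply_symm_apply, f.apply_symm_apply, ← h] at h1
    have h2 : f ⟨_, hmem⟩ = u := Subtype.ext h1
    rw [← h2, f.symm_apply_apply]
  · intro h
    have hmem : (f.symm s).1ᶜ ∈ B.1 := B.2.2.2.2 _ (f.symm s).2
    have h1 := (hf (f.symm s) (f.symm t) ⟨_, hmem⟩).2.2 rfl
    rw [f.apply_symm_apply, ← h] at h1
    have h2 : f ⟨_, hmem⟩ = u := Subtype.ext h1
    rw [← h2, f.symm_apply_apply]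

lemma Iso.trans {B C D : Alg} (h : Iso B C) (h' : Iso C D) : Iso B D := by
  obtain ⟨f, hf⟩ := h
  obtain ⟨g, hg⟩ := h'
  refine ⟨f.trans g, fun s t u => ⟨?_, ?_, ?_⟩⟩
  · intro h
    exact (hg (f s) (f t) (f u)).1 ((hf s t u).1 h)
  · intro h
    exact (hg (f s) (f t) (f u)).2.1 ((hf s t u).2.1 h)
  · intro h
    exact (hg (f s) (f t) (f u)).2.2 ((hf s t u).2.2 h)

/-- The isomorphism relation as a setoid. -/
def isoSetoid : Setoid Alg := ⟨Iso, Iso.refl, Iso.symm, Iso.trans⟩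

/-- The number `N` of isomorphism classes of Boolean algebras of sets of reals. -/
noncomputable def numberOfClasses : Cardinal := #(Quotient isoSetoid)

/-- An algebra containing all singletons. -/
def HasSing (B : Alg) : Prop := ∀ x : ℝ, {x} ∈ B.1

/-- An isomorphism between algebras containing all singletons is induced by a map. -/
lemma iso_induced {B C : Alg} (hB : HasSing B) (hC : HasSing C) (h : Iso B C) :
    ∃ π : ℝ → ℝ, C.1 = (fun s : Set ℝ => π '' s) '' B.1 := by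
  obtain ⟨f, hf⟩ := h
  obtain ⟨e, he⟩ : ∃ e : B.1, e.1 = ∅ := ⟨⟨∅, B.2.1⟩, rfl⟩
  have fe : (f e).1 = ∅ := by
    have hmem : e.1ᶜ ∈ B.1 := B.2.2.2.2 _ e.2
    have h1 := (hf e e ⟨_, hmem⟩).2.2 rfl
    have h2 := (hf e ⟨_, hmem⟩ e).2.1 (by show e.1 = e.1 ∩ e.1ᶜ; rw [he]; simp)
    rw [h1] at h2
    rw [h2]; simp
  have fne : ∀ s : B.1, s.1.Nonempty → (f s).1.Nonempty := by
    intro s hs
    rw [nonempty_iff_ne_empty]
    intro h0
    have : f s = f e := Subtype.ext (h0.trans fe.symm)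
    have := f.injective this
    rw [this, he] at hs
    exact not_nonempty_empty hs
  -- monotone
  have fmono : ∀ s t : B.1, s.1 ⊆ t.1 → (f s).1 ⊆ (f t).1 := by
    intro s t hst
    have := (hf s t s).2.1 (by rw [inter_eq_left.2 hst])
    rw [this]; exact inter_subset_right
  have fmono' : ∀ s t : B.1, (f s).1 ⊆ (f t).1 → s.1 ⊆ t.1 := by
    intro s t hst
    have hmem := inter_mem B s.2 t.2
    have h1 := (hf s t ⟨_, hmem⟩).2.1 rfl
    rw [inter_eq_left.2 hst] at h1
    have h2 := f.injective (Subtype.ext h1 : f ⟨_, hmem⟩ = f s)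
    have h3 : s.1 ∩ t.1 = s.1 := congrArg Subtype.val h2
    exact inter_eq_left.1 h3
  have hsing : ∀ x : ℝ, ∃ y : ℝ, (f ⟨{x}, hB x⟩).1 = {y} := by
    intro x
    obtain ⟨y, hy⟩ := fne ⟨{x}, hB x⟩ ⟨x, rfl⟩
    refine ⟨y, ?_⟩
    obtain ⟨s, hs⟩ := f.surjective ⟨{y}, hC y⟩
    have hsx : s.1 ⊆ {x} := by
      apply fmono' s ⟨{x}, hB x⟩
      rw [hs]
      simpa using hy
    have hsne : s.1.Nonempty := by
      rw [nonempty_iff_ne_empty]
      intro h0
      have : s = e := Subtype.ext (h0.trans he.symm)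
      rw [this] at hs
      have := congrArg Subtype.val hs
      rw [fe] at this
      exact (singleton_ne_empty y) this.symm
    have hs' : s = ⟨{x}, hB x⟩ := by
      apply Subtype.ext
      rcases subset_singleton_iff_eq.1 hsx with h | h
      · exact absurd h (nonempty_iff_ne_empty.1 hsne)
      · exact h
    rw [← hs', hs]
  choose π hπ using hsing
  have key : ∀ s : B.1, (f s).1 = π '' s.1 := by
    intro s
    apply Subset.antisymm
    · intro y hy
      obtain ⟨t, ht⟩ := f.surjective ⟨{y}, hC y⟩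
      have hts : t.1 ⊆ s.1 := by
        apply fmono' t s
        rw [ht]; simpa using hy
      have htne : t.1.Nonempty := by
        rw [nonempty_iff_ne_empty]
        intro h0
        have : t = e := Subtype.ext (h0.trans he.symm)
        rw [this] at ht
        have := congrArg Subtype.val ht
        rw [fe] at this
        exact (singleton_ne_empty y) this.symm
      obtain ⟨x, hx⟩ := htne
      refine ⟨x, hts hx, ?_⟩
      have h1 : (f ⟨{x}, hB x⟩).1 ⊆ (f t).1 := by
        apply fmono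
        simpa using hx
      rw [hπ, ht] at h1
      simpa using h1
    · rintro _ ⟨x, hx, rfl⟩
      have h1 : (f ⟨{x}, hB x⟩).1 ⊆ (f s).1 := by
        apply fmono
        simpa using hx
      rw [hπ] at h1
      simpa using h1
  refine ⟨π, ?_⟩
  ext c
  constructor
  · intro hc
    obtain ⟨s, hs⟩ := f.surjective ⟨c, hc⟩
    refine ⟨s.1, s.2, ?_⟩
    show π '' s.1 = c
    rw [← key, hs]
  · rintro ⟨s, hs, rfl⟩
    show π '' s ∈ C.1
    have := (f ⟨s, hs⟩).2
    rwa [key ⟨s, hs⟩] at this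

/-- index type -/
abbrev D : Type := Finset ℝ × Finset (Finset ℝ)

lemma mk_D : #D = #ℝ := by
  have h1 : #(Finset ℝ) = #ℝ := Cardinal.mk_finset_of_infinite ℝ
  have h2 : #(Finset (Finset ℝ)) = #(Finset ℝ) := Cardinal.mk_finset_of_infinite _
  have hinf : ℵ₀ ≤ #ℝ := Cardinal.aleph0_le_mk ℝ
  simp only [D, Cardinal.mk_prod, Cardinal.lift_id, h1, h2]
  exact Cardinal.mul_eq_self hinf

noncomputable def eqv : ℝ ≃ D := (Cardinal.eq.1 mk_D).some.symm

open Classical in
/-- The independent family. -/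
noncomputable def A (X : Set ℝ) : Set ℝ := {r | ((eqv r).1.filter (· ∈ X)) ∈ (eqv r).2}

/-- The algebra attached to a family `I`. -/
def BI (I : Set (Set ℝ)) : Set (Set ℝ) :=
  {S | ∃ (Y : Set (Set ℝ)) (E : Set ℝ), Y.Finite ∧ Y ⊆ I ∧ E.Finite ∧
    ∀ p q : ℝ, p ∉ E → q ∉ E → (∀ X ∈ Y, p ∈ A X ↔ q ∈ A X) → (p ∈ S ↔ q ∈ S)}

lemma BI_alg (I : Set (Set ℝ)) : IsAlg (BI I) := by
  refine ⟨?_, ?_, ?_, ?_⟩
  · exact ⟨∅, ∅, finite_empty, empty_subset _, finite_empty, fun p q _ _ _ => by simp⟩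
  · exact ⟨∅, ∅, finite_empty, empty_subset _, finite_empty, fun p q _ _ _ => by simp⟩
  · rintro s ⟨Y, E, hY, hYI, hE, h⟩ t ⟨Y', E', hY', hYI', hE', h'⟩
    refine ⟨Y ∪ Y', E ∪ E', hY.union hY', union_subset hYI hYI', hE.union hE', ?_⟩
    intro p q hp hq hX
    have h1 := h p q (fun hh => hp (Or.inl hh)) (fun hh => hq (Or.inl hh))
      (fun X hXY => hX X (Or.inl hXY))
    have h2 := h' p q (fun hh => hp (Or.inr hh)) (fun hh => hq (Or.inr hh))
      (fun X hXY => hX X (Or.inr hXY))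
    simp only [mem_union, h1, h2]
  · rintro s ⟨Y, E, hY, hYI, hE, h⟩
    refine ⟨Y, E, hY, hYI, hE, ?_⟩
    intro p q hp hq hX
    rw [mem_compl_iff, mem_compl_iff, h p q hp hq hX]

lemma BI_sing (I : Set (Set ℝ)) (x : ℝ) : {x} ∈ BI I := by
  refine ⟨∅, {x}, finite_empty, empty_subset _, finite_singleton x, ?_⟩
  intro p q hp hq _
  exact ⟨fun h => absurd h hp, fun h => absurd h hq⟩

lemma A_mem {I : Set (Set ℝ)} {X : Set ℝ} (hX : X ∈ I) : A X ∈ BI I := by
  refine ⟨{X}, ∅, finite_singleton X, by simpa using hX, finite_empty, ?_⟩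
  intro p q _ _ h
  exact h X rfl

lemma A_not_mem {I : Set (Set ℝ)} {X : Set ℝ} (hX : X ∉ I) : A X ∉ BI I := by
  classical
  rintro ⟨Y, E, hY, hYI, hE, h⟩
  -- a finite set separating X from the members of Y
  have hsep : ∀ Z ∈ Y, ∃ z : ℝ, ¬ (z ∈ X ↔ z ∈ Z) := by
    intro Z hZ
    by_contra hcon
    push Not at hcon
    have : X = Z := by ext z; exact hcon z
    exact hX (this ▸ hYI hZ)
  choose! z hz using hsep
  let F0 : Finset ℝ := hY.toFinset.image z
  -- infinitely many finite supersets of F0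
  have hinf : {F : Finset ℝ | F0 ⊆ F}.Infinite := by
    have hinj : Set.InjOn (fun r : ℝ => insert r F0) {r | r ∉ F0} := by
      intro a ha b hb hab
      simp only at hab
      have : a ∈ insert b F0 := by rw [← hab]; exact Finset.mem_insert_self _ _
      rcases Finset.mem_insert.1 this with h | h
      · exact h
      · exact absurd h ha
    have hinf0 : {r : ℝ | r ∉ F0}.Infinite := by
      have : {r : ℝ | r ∉ F0} = (↑F0 : Set ℝ)ᶜ := by ext; simp
      rw [this]
      exact F0.finite_toSet.infinite_compl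
    refine (hinf0.image hinj).mono ?_
    rintro _ ⟨r, _, rfl⟩
    exact Finset.subset_insert _ _
  have hEfin : ((fun r => (eqv r).1) '' E).Finite := hE.image _
  obtain ⟨F, hF, hFE⟩ := (hinf.sdiff hEfin).nonempty
  have hF' : F0 ⊆ F := hF
  obtain ⟨p, hp⟩ : ∃ p, eqv p = (F, {F.filter (· ∈ X)}) := eqv.surjective _
  obtain ⟨q, hq⟩ : ∃ q, eqv q = (F, ∅) := eqv.surjective _
  have hpE : p ∉ E := fun hh => hFE ⟨p, hh, by simp [hp]⟩
  have hqE : q ∉ E := fun hh => hFE ⟨q, hh, by simp [hq]⟩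
  have hpX : p ∈ A X := by
    simp only [A, mem_ofPred_eq, hp]
    rw [Finset.mem_singleton]
  have hqX : ∀ Z, q ∉ A Z := by
    intro Z
    simp only [A, mem_ofPred_eq, hq]
    exact Finset.notMem_empty _
  have hpZ : ∀ Z ∈ Y, p ∉ A Z := by
    intro Z hZ
    simp only [A, mem_ofPred_eq, hp]
    rw [Finset.mem_singleton]
    intro heq
    have hzF : z Z ∈ F := hF' (Finset.mem_image_of_mem _ (hY.mem_toFinset.2 hZ))
    apply hz Z hZ
    have := Finset.ext_iff.1 heq (z Z)
    simp only [Finset.mem_filter, hzF, true_and] at this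
    exact this.symm
  have := (h p q hpE hqE (fun Z hZ => ⟨fun hh => absurd hh (hpZ Z hZ),
    fun hh => absurd hh (hqX Z)⟩)).1 hpX
  exact hqX X this

lemma BI_inj : Function.Injective BI := by
  intro I J h
  ext X
  constructor
  · intro hX
    by_contra hXJ
    exact A_not_mem hXJ (h ▸ A_mem hX)
  · intro hX
    by_contra hXI
    exact A_not_mem hXI (h ▸ A_mem hX)

noncomputable def toAlg (I : Set (Set ℝ)) : Alg := ⟨BI I, BI_alg I⟩

lemma toAlg_sing (I : Set (Set ℝ)) : HasSing (toAlg I) := fun x => BI_sing I x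

/-- There are exactly `2 ^ (2 ^ 𝔠)` isomorphism classes of Boolean algebras of sets of reals. -/
theorem result : numberOfClasses = 2 ^ ((2 : Cardinal) ^ 𝔠) := by
  have hset : #(Set (Set ℝ)) = 2 ^ ((2 : Cardinal) ^ 𝔠) := by
    rw [Cardinal.mk_set, Cardinal.mk_set, Cardinal.mk_real]
  apply le_antisymm
  · calc numberOfClasses ≤ #Alg := Cardinal.mk_quotient_le
      _ ≤ #(Set (Set ℝ)) := Cardinal.mk_subtype_le _
      _ = _ := hset
  · -- choose a representative of each class met by the family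
    let cl : Set (Set ℝ) → Quotient isoSetoid := fun I => Quotient.mk isoSetoid (toAlg I)
    have hrep : ∀ c : Quotient isoSetoid, ∃ B : Alg, HasSing B ∧
        ((∃ I, cl I = c) → Quotient.mk isoSetoid B = c) := by
      intro c
      by_cases h : ∃ I, cl I = c
      · obtain ⟨I, hI⟩ := h
        exact ⟨toAlg I, toAlg_sing I, fun _ => hI⟩
      · exact ⟨toAlg ∅, toAlg_sing ∅, fun h' => absurd h' h⟩
    choose rep hrepS hrepC using hrep
    have hmap : ∀ I : Set (Set ℝ), ∃ π : ℝ → ℝ,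
        BI I = (fun s : Set ℝ => π '' s) '' (rep (cl I)).1 := by
      intro I
      have h1 : Quotient.mk isoSetoid (rep (cl I)) = Quotient.mk isoSetoid (toAlg I) :=
        hrepC (cl I) ⟨I, rfl⟩
      have h2 : Iso (rep (cl I)) (toAlg I) := Quotient.exact h1
      obtain ⟨π, hπ⟩ := iso_induced (hrepS _) (toAlg_sing I) h2
      exact ⟨π, hπ⟩
    choose π hπ using hmap
    have hinj : Function.Injective (fun I : Set (Set ℝ) => (cl I, π I)) := by
      intro I J h
      simp only [Prod.mk.injEq] at h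
      apply BI_inj
      rw [hπ I, hπ J, h.1, h.2]
    have hle : #(Set (Set ℝ)) ≤ #(Quotient isoSetoid × (ℝ → ℝ)) := Cardinal.mk_le_of_injective hinj
    have hfun : #(ℝ → ℝ) = 2 ^ 𝔠 := by
      rw [← Cardinal.power_def, Cardinal.mk_real]
      exact Cardinal.power_self_eq (Cardinal.aleph0_le_continuum)
    rw [hset, Cardinal.mk_prod, Cardinal.lift_id, Cardinal.lift_id, hfun] at hle
    by_contra hlt
    push Not at hlt
    have h3 : (2 : Cardinal) ^ 𝔠 < 2 ^ ((2 : Cardinal) ^ 𝔠) := Cardinal.cantor _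
    have h4 : numberOfClasses * 2 ^ 𝔠 < 2 ^ ((2 : Cardinal) ^ 𝔠) := by
      apply Cardinal.mul_lt_of_lt _ hlt h3
      exact (Cardinal.aleph0_le_continuum.trans (Cardinal.cantor _).le).trans h3.le
    exact absurd hle (not_le.2 h4)

end Pool.Agent.Results.MP_4ec73f_lc.MaximalNumber
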